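import Pool.Agent.H557R2.Mve.Red
import Pool.Agent.H527R3.FptRed

/-!
# Shortest Path Most Vital Edges is W[1]-hard with respect to the deletion budget
-/

namespace Pool.Agent.Results.MP_40aef2_lc.WOneHard

open Turing Pool.Agent.NPC Pool.Agent.H557R2.Fpt Pool.Agent.H557R2.Mve

/-- A map computed in polynomial time from the pair of instance and parameter is computable in fpt
time. -/
theorem fptComputable_of_pc {R : List Bool × ℕ → List Bool × ℕ} (h : PC pcode pcode R) :
    FptComputable R := by
  obtain ⟨c, B, ⟨f, p, hf, hB⟩, h⟩ := FT.of_pc h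
  exact FptC.toFpt ⟨c, f, p, hf, fun x k => (h x k).mono (hB x k)⟩

/-- Shortest Path Most Vital Edges, parameterized by the number `k` of deleted edges, is
`W[1]`-hard, already for unit edge lengths; so if it (or its restriction to unit lengths) is
fixed-parameter tractable, then every problem in `W[1]` is.  Explicitly, an fpt-computable map
sends an instance `(x, k)` of `p-Clique` to an equivalent instance with unit edge lengths and
budget at most `3 * k * k`. -/
theorem result :
    (W1Hard spMVE ∧ W1Hard spMVEUnit) ∧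
    (FptDecidable spMVE → ∀ L ∈ W1, FptDecidable L) ∧
    (FptDecidable spMVEUnit → ∀ L ∈ W1, FptDecidable L) ∧
    ∃ R : List Bool × ℕ → List Bool × ℕ, FptComputable R ∧ ∀ x k, (R (x, k)).2 ≤ 3 * k * k ∧
      ((x, k) ∈ pClique ↔ R (x, k) ∈ spMVEUnit) ∧ ((x, k) ∈ pClique ↔ R (x, k) ∈ spMVE) :=
  ⟨⟨w1Hard_spMVE, w1Hard_spMVEUnit⟩,
    fun h L hL => Pool.Agent.H527R3.fptDecidable_of_reduces (w1Hard_spMVE L hL) h,
    fun h L hL => Pool.Agent.H527R3.fptDecidable_of_reduces (w1Hard_spMVEUnit L hL) h,
    redP, fptComputable_of_pc pc_redP, fun x k => ⟨redP_snd_le x k,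
      mem_pClique_iff_spMVEUnit x k, mem_pClique_iff_spMVE x k⟩⟩

end Pool.Agent.Results.MP_40aef2_lc.WOneHard
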